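import Pool.Agent.Lib.LUC.N2

/-! # A: log uniformization over a regular local ring with a coefficient field, from the log
uniformization of function fields of bounded transcendence degree (no bound on the defect) -/

set_option autoImplicit false

namespace Pool.Agent.LUF91

open Pool.Agent.H15JM (RVal)
open Pool.Agent.LU1 (VPos)
open Pool.Agent.LU2 (IsR1 IndVal IndRes DefLE Rel vring rcomap rel_vring)
open Pool.Agent.LU2G (LUr)
open Pool.Agent.LUC
open Polynomial

universe u

/-- The valuation rings of rank one, which contain `k`, of the function fields over `k` of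
transcendence degree at most `N` are log uniformizable; if `z` holds, only those with residue field
`k`. -/
def RealUpTo (k : Type u) [Field k] (N : ℕ) (z : Prop) : Prop :=
  ∀ (K : Type u) [Field K] [Algebra k K], (⊤ : IntermediateField k K).FG →
    Algebra.trdeg k K ≤ (N : Cardinal) → ∀ V : ValuationSubring K,
      (∀ c : k, algebraMap k K c ∈ V) → IsR1 V →
      (z → ∀ f ∈ V, ∃ c : k, V.valuation (f - algebraMap k K c) < 1) → LUr k V

section Coeff

variable {Ω : Type u} [Field Ω] {w : RVal Ω} {S : Subring Ω} {m e q : ℕ} {x : Fin m → Ω}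
  {t : Fin e → Ω} {K₀ K' : Subfield Ω} {B : Finset Ω} {α : Fin q → Ω} {u : Ω} {H : Polynomial Ω}
  {k κ : Type u} [Field k] [Field κ] [Algebra k κ] [Algebra k Ω] [Algebra κ Ω]
  [IsScalarTower k κ Ω]

theorem lus_all [Algebra.EssFiniteType k κ] {N : ℕ} {z : Prop} (hLU : RealUpTo k N z)
    (h : Setup w (algebraMap κ Ω).range S x t K₀ K' B α u H) (hpos : ∃ c ∈ K', c ≠ 0 ∧ 0 < w c)
    (hz : z → ∀ f : Ω, w.Ge 0 f → ∃ c : k, VPos w (f - algebraMap k Ω c))
    (hN : Algebra.trdeg k κ + ((m + e : ℕ) : Cardinal) ≤ (N : Cardinal)) :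
    LUs w (algebraMap κ Ω).range K₀ := by
  classical
  have hκ : ∀ c : κ, w.Ge 0 (algebraMap κ Ω c) := fun c =>
    h.base.ge _ (h.base.le ⟨c, rfl⟩)
  have hκ0 : ∀ c : κ, c ≠ 0 → algebraMap κ Ω c ≠ 0 ∧ w (algebraMap κ Ω c) = 0 := by
    intro c hc
    have h1 : algebraMap κ Ω c ≠ 0 := (_root_.map_ne_zero _).2 hc
    refine ⟨h1, le_antisymm ?_ (hκ c h1)⟩
    have h2 := hκ c⁻¹ ((_root_.map_ne_zero _).2 (inv_ne_zero hc))
    rw [map_inv₀, w.map_inv h1] at h2
    linarith
  have hk : ∀ c : k, w.Ge 0 (algebraMap k Ω c) := by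
    intro c
    rw [IsScalarTower.algebraMap_apply k κ Ω]
    exact hκ _
  have hκK : ∀ c : κ, algebraMap κ Ω c ∈ K₀ := fun c =>
    h.quo₀.1 _ (base_le_adj _ _ ⟨c, rfl⟩)
  let i0 : Algebra κ K₀ := ((algebraMap κ Ω).codRestrict K₀ hκK).toAlgebra
  have i1 : IsScalarTower κ K₀ Ω := IsScalarTower.of_algebraMap_eq fun c => rfl
  let i2 : Algebra k K₀ := ((algebraMap κ K₀).comp (algebraMap k κ)).toAlgebra
  have i3 : IsScalarTower k κ K₀ := IsScalarTower.of_algebraMap_eq fun c => rfl
  have i4 : IsScalarTower k K₀ Ω := IsScalarTower.of_algebraMap_eq fun c => by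
    rw [IsScalarTower.algebraMap_apply k κ Ω]
    rfl
  have hkK : ∀ c : k, ((algebraMap k K₀ c : K₀) : Ω) = algebraMap k Ω c := fun c =>
    (IsScalarTower.algebraMap_apply k K₀ Ω c).symm
  set V₀ : ValuationSubring K₀ := vring (rcomap w K₀.subtype) with hV₀
  have hrel := rel_vring (rcomap w K₀.subtype)
  have hkV : ∀ c : k, algebraMap k K₀ c ∈ V₀ := by
    intro c h0
    have h2 := hk c (by
      rw [← hkK]
      exact fun h => h0 (Subtype.ext h))
    rw [← hkK] at h2
    exact h2
  -- rank one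
  obtain ⟨c, hcK, hc0, hcw⟩ := hpos
  obtain ⟨c₀, hc₀, hc₀0, hc₀w, -⟩ := Cl.exists_val (h.cl c hcK) 0 hc0
  have hR : IsR1 V₀ := by
    refine isR1_vring _ (⟨c₀, hc₀⟩ : K₀) (fun h0 => hc₀0 (congrArg Subtype.val h0)) ?_
    change 0 < w c₀
    rw [hc₀w]
    exact hcw
  have htr : Algebra.trdeg k K₀ ≤ (N : Cardinal) := by
    have h1 : Algebra.trdeg k κ + Algebra.trdeg κ K₀ = Algebra.trdeg k K₀ :=
      trdeg_add_eq k κ (A := K₀)
    rw [← h1]
    exact (add_le_add le_rfl h.trdeg_le).trans hN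
  have hfg : (⊤ : IntermediateField k K₀).FG := by
    have h1 : Algebra.EssFiniteType κ K₀ := IntermediateField.fg_top_iff.1 h.fg
    have h2 : Algebra.EssFiniteType k K₀ := Algebra.EssFiniteType.comp k κ K₀
    exact IntermediateField.fg_top_iff.2 h2
  have hz₀ : z → ∀ f ∈ V₀, ∃ c : k, V₀.valuation (f - algebraMap k K₀ c) < 1 := by
    intro hzz f hf
    have hf1 : w.Ge 0 (f : Ω) := by
      intro h0
      exact (hrel.mem_iff f).1 hf fun h1 => h0 (congrArg Subtype.val h1)
    obtain ⟨c, hc⟩ := hz hzz f hf1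
    refine ⟨c, (hrel.lt_one_iff' _).2 fun h0 => ?_⟩
    have h1 : ((f - algebraMap k K₀ c : K₀) : Ω) = (f : Ω) - algebraMap k Ω c := by
      rw [← hkK]
      rfl
    have h2 := hc (by
      rw [← h1]
      exact fun h => h0 (Subtype.ext h))
    rw [← h1] at h2
    exact h2
  have hL : LUrV k V₀ := lurV_of_lur (hLU K₀ hfg htr V₀ hkV hR hz₀)
  have hL' := LUrV.lus (w := w) (Ω := Ω) (V := V₀) (fun f => by
    rw [hrel.mem_iff]
    constructor
    · intro h1 h2
      exact h1 (by simpa using h2)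
    · intro h1 h2
      exact h1 (by simpa using h2)) hkV hL
  have hr : (algebraMap K₀ Ω).fieldRange = K₀ := by
    ext f
    constructor
    · rintro ⟨y, rfl⟩
      exact y.2
    · intro hf
      exact ⟨⟨f, hf⟩, rfl⟩
  rw [hr] at hL'
  -- from `k` to `κ`
  obtain ⟨F, hF⟩ := (Algebra.essFiniteType_iff k κ).1 (inferInstance : Algebra.EssFiniteType k κ)
  refine hL'.base ?_ ?_ (F.image (algebraMap κ Ω)) ?_ ?_
  · rintro _ ⟨c, rfl⟩
    exact ⟨algebraMap k κ c, (IsScalarTower.algebraMap_apply k κ Ω c).symm⟩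
  · rintro _ ⟨c, rfl⟩
    exact hκ c
  · intro g hg
    obtain ⟨c, -, rfl⟩ := Finset.mem_image.1 hg
    exact ⟨c, rfl⟩
  · have key : ∀ c ∈ Algebra.adjoin k (F : Set κ), algebraMap κ Ω c ∈
        adj (algebraMap k Ω).range ((F.image (algebraMap κ Ω) : Finset Ω) : Set Ω) := by
      intro c hc
      induction hc using Algebra.adjoin_induction with
      | mem x hx => exact mem_adj (Finset.mem_coe.2 (Finset.mem_image_of_mem _ hx))
      | algebraMap s =>
        rw [← IsScalarTower.algebraMap_apply k κ Ω]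
        exact base_le_adj _ _ ⟨s, rfl⟩
      | add a b _ _ ha hb => rw [map_add]; exact add_mem ha hb
      | mul a b _ _ ha hb => rw [map_mul]; exact mul_mem ha hb
    rintro _ ⟨c, rfl⟩
    obtain ⟨t, ht, htu, hct⟩ := hF c
    obtain ⟨ht0, ht1⟩ := hκ0 t htu.ne_zero
    refine ⟨_, key _ hct, _, key _ ht, ht0, ht1, ?_⟩
    rw [map_mul, mul_div_cancel_right₀ _ ht0]

end Coeff

/-- The residue field of an algebraic extension, over an algebraically closed field. -/
theorem res_ext {k K Ω : Type u} [Field k] [IsAlgClosed k] [Field K] [Field Ω] [Algebra k K]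
    [Algebra K Ω] [Algebra k Ω] [IsScalarTower k K Ω] [Algebra.IsAlgebraic K Ω] (w : RVal Ω)
    (hk : ∀ c : k, w.Ge 0 (algebraMap k Ω c))
    (hres : ∀ f : K, w.Ge 0 (algebraMap K Ω f) →
      ∃ c : k, VPos w (algebraMap K Ω f - algebraMap k Ω c)) (g : Ω) (hg : w.Ge 0 g) :
    ∃ c : k, VPos w (g - algebraMap k Ω c) := by
  classical
  obtain ⟨P, hP0, hP⟩ := Algebra.IsAlgebraic.isAlgebraic (R := K) g
  -- the coefficient of least value
  obtain ⟨i, hi, hmin⟩ := P.support.exists_min_image (fun i => w (algebraMap K Ω (P.coeff i)))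
    (Polynomial.support_nonempty.2 hP0)
  have hi0 : P.coeff i ≠ 0 := Polynomial.mem_support_iff.1 hi
  have hιi : algebraMap K Ω (P.coeff i) ≠ 0 := (_root_.map_ne_zero _).2 hi0
  let a : ℕ → K := fun j => P.coeff j / P.coeff i
  have ha : ∀ j, w.Ge 0 (algebraMap K Ω (a j)) := by
    intro j h0
    have h1 : algebraMap K Ω (a j) = algebraMap K Ω (P.coeff j) / algebraMap K Ω (P.coeff i) :=
      map_div₀ _ _ _
    rw [h1] at h0 ⊢
    have h2 : algebraMap K Ω (P.coeff j) ≠ 0 := by
      intro h3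
      rw [h3, zero_div] at h0
      exact h0 rfl
    rw [w.map_div h2 hιi]
    have h3 := hmin j (Polynomial.mem_support_iff.2 ((_root_.map_ne_zero _).1 h2))
    linarith
  choose c hc using fun j => hres (a j) (ha j)
  let Q : Polynomial k := ∑ j ∈ P.support, Polynomial.monomial j (c j)
  have hQi : Q.coeff i = c i := by
    simp only [Q, Polynomial.finsetSum_coeff, Polynomial.coeff_monomial]
    rw [Finset.sum_ite_eq' P.support i, if_pos hi]
  have hci : c i ≠ 0 := by
    intro h0
    have h1 := hc i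
    rw [h0, map_zero, sub_zero] at h1
    have h2 : a i = 1 := div_self hi0
    rw [h2, map_one] at h1
    have h3 := h1 one_ne_zero
    rw [w.map_one] at h3
    exact lt_irrefl _ h3
  have hQ0 : Q ≠ 0 := by
    intro h0
    rw [h0, Polynomial.coeff_zero] at hQi
    exact hci hQi.symm
  have hQg : VPos w (Polynomial.aeval g Q) := by
    have h1 : ∑ j ∈ P.support, algebraMap K Ω (a j) * g ^ j = 0 := by
      have h2 : (∑ j ∈ P.support, algebraMap K Ω (P.coeff j) * g ^ j) = 0 := by
        rw [← hP, Polynomial.aeval_eq_sum_range' (Nat.lt_succ_self _)]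
        have h3 : P.support ⊆ Finset.range (P.natDegree + 1) := Polynomial.supp_subset_range_natDegree_succ
        rw [← Finset.sum_subset h3]
        · exact Finset.sum_congr rfl fun j _ => by rw [Algebra.smul_def]
        · intro j _ hj
          rw [Polynomial.notMem_support_iff.1 hj, zero_smul]
      have h4 : ∀ j ∈ P.support, algebraMap K Ω (a j) * g ^ j =
          (algebraMap K Ω (P.coeff j) * g ^ j) * (algebraMap K Ω (P.coeff i))⁻¹ := by
        intro j _
        rw [show algebraMap K Ω (a j) = algebraMap K Ω (P.coeff j) / algebraMap K Ω (P.coeff i)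
          from map_div₀ _ _ _]
        field_simp
      rw [Finset.sum_congr rfl h4, ← Finset.sum_mul, h2, zero_mul]
    have h5 : Polynomial.aeval g Q =
        ∑ j ∈ P.support, (algebraMap k Ω (c j) - algebraMap K Ω (a j)) * g ^ j := by
      simp only [Q, map_sum, Polynomial.aeval_monomial, sub_mul, Finset.sum_sub_distrib]
      rw [h1, sub_zero]
    rw [h5]
    refine Finset.sum_induction _ (VPos w) (fun _ _ h h' => h.add h') VPos.zero fun j _ => ?_
    have h6 : VPos w (algebraMap k Ω (c j) - algebraMap K Ω (a j)) := by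
      have := (hc j).neg
      rwa [neg_sub] at this
    rw [mul_comm]
    refine VPos.mul' ?_ h6
    have h7 := RVal.Ge.prod (v := w) (fun _ : Fin j => (0 : ℝ)) Finset.univ (fun _ => g)
      fun _ _ => hg
    simpa using h7
  -- the roots
  by_contra hcon
  push Not at hcon
  have hroot : ∀ r : k, g - algebraMap k Ω r ≠ 0 ∧ w (g - algebraMap k Ω r) = 0 := by
    intro r
    have h1 := hcon r
    rw [VPos] at h1
    push Not at h1
    obtain ⟨h2, h3⟩ := h1
    have h4 : w.Ge 0 (g - algebraMap k Ω r) := by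
      have h5 := hg.add (hk r).neg
      rwa [← sub_eq_add_neg] at h5
    exact ⟨h2, le_antisymm h3 (h4 h2)⟩
  have hsplit := IsAlgClosed.splits Q
  have hfac : Polynomial.aeval g Q = algebraMap k Ω Q.leadingCoeff *
      (Q.roots.map fun r => g - algebraMap k Ω r).prod := by
    conv_lhs => rw [hsplit.eq_prod_roots]
    rw [map_mul, Polynomial.aeval_C, map_multiset_prod, Multiset.map_map]
    congr 2
    refine Multiset.map_congr rfl fun r _ => ?_
    simp
  have hprod : ∀ s : Multiset k, (s.map fun r => g - algebraMap k Ω r).prod ≠ 0 ∧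
      w (s.map fun r => g - algebraMap k Ω r).prod = 0 := by
    intro s
    induction s using Multiset.induction_on with
    | empty => simp [w.map_one]
    | cons r s ih =>
      rw [Multiset.map_cons, Multiset.prod_cons]
      obtain ⟨h1, h2⟩ := hroot r
      exact ⟨mul_ne_zero h1 ih.1, by rw [w.map_mul h1 ih.1, h2, ih.2, add_zero]⟩
  have hlc : algebraMap k Ω Q.leadingCoeff ≠ 0 ∧ w (algebraMap k Ω Q.leadingCoeff) = 0 := by
    have h1 : Q.leadingCoeff ≠ 0 := Polynomial.leadingCoeff_ne_zero.2 hQ0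
    have h2 : algebraMap k Ω Q.leadingCoeff ≠ 0 := (_root_.map_ne_zero _).2 h1
    refine ⟨h2, le_antisymm ?_ (hk _ h2)⟩
    have h3 := hk Q.leadingCoeff⁻¹ ((_root_.map_ne_zero _).2 (inv_ne_zero h1))
    rw [map_inv₀, w.map_inv h2] at h3
    linarith
  obtain ⟨h1, h2⟩ := hprod Q.roots
  have h3 := hQg (by rw [hfac]; exact mul_ne_zero hlc.1 h1)
  rw [hfac, w.map_mul hlc.1 h1, hlc.2, h2, add_zero] at h3
  exact lt_irrefl _ h3

theorem lurV_all {k κ S K : Type u} [Field k] [IsAlgClosed k]
    [Field κ] [Algebra k κ] [Algebra.EssFiniteType k κ]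
    [CommRing S] [IsDomain S] [IsRegularLocalRing S] [Field K] [Algebra κ S] [Algebra S K]
    [Algebra κ K] [IsScalarTower κ S K] [FaithfulSMul S K] [Algebra (FractionRing S) K]
    [IsScalarTower S (FractionRing S) K] [Algebra.EssFiniteType S K]
    (hres : ∀ s : S, ∃ c : κ, s - algebraMap κ S c ∈ IsLocalRing.maximalIdeal S) {m : ℕ}
    (hdim : ringKrullDim S = m) (s : Set K)
    (hs : IsTranscendenceBasis (FractionRing S) ((↑) : s → K))
    (hsep : Algebra.IsSeparable (IntermediateField.adjoin (FractionRing S) s) K)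
    (V : ValuationSubring K) (hR : IsR1 V) (hS : ∀ s : S, algebraMap S K s ∈ V)
    (hmS : ∀ s ∈ IsLocalRing.maximalIdeal S, V.valuation (algebraMap S K s) < 1)
    {N : ℕ} {z : Prop} (hLU : RealUpTo k N z)
    (hz : z → ∀ f ∈ V, ∃ c : k, V.valuation (f - algebraMap κ K (algebraMap k κ c)) < 1)
    (hN : Algebra.trdeg k κ + (Algebra.trdeg S K + (m : Cardinal)) ≤ (N : Cardinal)) :
    LUrV S V := by
  classical
  obtain ⟨v, w, hrel, hw, hV, hVpos, c, hc0, hcV⟩ := exists_entry V hR
  let Ω : Type u := AlgebraicClosure K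
  let ι : K →+* Ω := algebraMap K Ω
  have hι0 : ∀ f : K, ι f ≠ 0 ↔ f ≠ 0 := fun f => (_root_.map_ne_zero ι)
  have hinj : Function.Injective (algebraMap S Ω) := by
    rw [IsScalarTower.algebraMap_eq S K Ω]
    exact ι.injective.comp (FaithfulSMul.algebraMap_injective S K)
  let j1 : Algebra k K := ((algebraMap κ K).comp (algebraMap k κ)).toAlgebra
  have i2 : IsScalarTower k κ Ω := IsScalarTower.of_algebraMap_eq fun c => by
    rw [IsScalarTower.algebraMap_apply k K Ω, IsScalarTower.algebraMap_apply κ K Ω]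
    rfl
  obtain ⟨x, hB⟩ := exists_base (k := κ) hinj w hres hdim
    (fun s => by rw [IsScalarTower.algebraMap_apply S K Ω]; exact (hV _).1 (hS s))
    (fun s hs => by rw [IsScalarTower.algebraMap_apply S K Ω]; exact hVpos _ (hmS s hs))
  obtain ⟨e, -, -, -, -, -, -, -, -, -, -, htr⟩ := exists_primitive s hs hsep V
  have hk : ∀ c : κ, algebraMap κ K c ∈ V := by
    intro c
    rw [IsScalarTower.algebraMap_apply κ S K]
    exact hS _
  have hwc : 0 < w (ι c) := by rw [hw c hc0]; exact hcV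
  have hN' : Algebra.trdeg k κ + ((m + e : ℕ) : Cardinal) ≤ (N : Cardinal) := by
    rw [htr] at hN
    have h1 : ((m + e : ℕ) : Cardinal) = (e : Cardinal) + (m : Cardinal) := by
      push_cast
      rw [add_comm]
    rw [h1]
    exact hN
  have hzΩ : z → ∀ f : Ω, w.Ge 0 f → ∃ c : k, VPos w (f - algebraMap k Ω c) := by
    intro hzz
    refine res_ext (K := K) w (fun c => ?_) fun f hf => ?_
    · rw [IsScalarTower.algebraMap_apply k K Ω]
      exact (hV _).1 (hk _)
    · obtain ⟨c, hc⟩ := hz hzz f ((hV f).2 hf)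
      refine ⟨c, ?_⟩
      have h1 := hVpos _ hc
      rw [map_sub] at h1
      rw [IsScalarTower.algebraMap_apply k K Ω]
      exact h1
  refine lurV_of_base s hs hsep V w hV hS ⟨c, hc0, hwc⟩ _ x hB htr
    fun t q K₀ K' B α u H ht hKK' hset => ?_
  exact lus_all hLU hset ⟨ι c, hKK' ⟨c, rfl⟩, (hι0 c).2 hc0, hwc⟩ hzΩ hN'

end Pool.Agent.LUF91
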