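import Pool.Agent.Lib.LUZ.Y08a
import Pool.Agent.Lib.LUF_h91.B

/-! # C: log uniformization over a noetherian local domain of characteristic p whose residue field
is finitely generated over an algebraically closed field, from the log uniformization of function
fields of bounded transcendence degree -/

set_option autoImplicit false

namespace Pool.Agent.LUF91

open IsLocalRing
open Pool.Agent.H15JM (RVal)
open Pool.Agent.LU1 (VPos)
open Pool.Agent.LU2 (IsR1 IndVal IndRes Rel vring rel_vring)
open Pool.Agent.LUC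
open Pool.Agent.LUZ

universe u

theorem lus_local_all (p : ℕ) (hp : p.Prime) {R K k : Type u} [CommRing R] [IsDomain R]
    [IsLocalRing R] [IsNoetherianRing R] [Field k] [IsAlgClosed k] (ι : k →+* ResidueField R)
    (hfg : @Algebra.EssFiniteType k (ResidueField R) _ _ ι.toAlgebra)
    [Field K] [Algebra R K] [IsFractionRing R K] {V : ValuationSubring K}
    {v : RVal K} (hR : IsR1 V) (hrel : Rel V v) (hge : ∀ r : R, algebraMap R K r ∈ V)
    (hpos : ∀ r ∈ maximalIdeal R, V.valuation (algebraMap R K r) < 1)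
    (hm : maximalIdeal R ≠ ⊥) (hp0 : (p : R) = 0)
    (hreg : ∀ Q : Ideal (Hat R), ∀ _ : Q.IsPrime, Q.comap (algebraMap R (Hat R)) = ⊥ →
      IsRegularLocalRing (Localization.AtPrime Q))
    (H : Ideal (Hat R)) (hH : ∀ f, f ∈ H ↔ f ∈ impl (K := K) v) {m : ℕ}
    (hdim : ringKrullDim (Hat R ⧸ H) = m) {N : ℕ} {z : Prop} (hLU : RealUpTo k N z)
    (hz : z → ∀ f ∈ V, ∃ c : R, residue R c ∈ ι.range ∧ V.valuation (f - algebraMap R K c) < 1)
    (hN : @Algebra.trdeg k (ResidueField R) _ _ ι.toAlgebra + (m : Cardinal) ≤ (N : Cardinal)) :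
    ∃ (Ω : Type u) (_ : Field Ω) (w : RVal Ω) (j : K →+* Ω), (∀ x : K, x ≠ 0 → w (j x) = v x) ∧
      LUs w (j.comp (algebraMap R K)).range j.fieldRange := by
  have hpm : (p : R) ∈ maximalIdeal R := by
    rw [hp0]
    exact Ideal.zero_mem _
  obtain ⟨Ω, i0, w, π, j, h, hred⟩ := exists_HD hrel hge hpos hm hreg H hH
  refine ⟨Ω, i0, w, j, h.val, hred ?_⟩
  have i1 : IsLocalRing π.range := range_isLocal π
  have i2 : IsNoetherianRing π.range := range_isNoetherian π
  have i3 : IsAdicComplete (maximalIdeal π.range) π.range := range_isAdicComplete π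
  have i5 : IsFractionRing π.range Ω := h.isFractionRing
  have hdim' : ringKrullDim π.range = m := by
    rw [range_dim, h.ker, hdim]
  have hR' : IsR1 (vring w) :=
    LCD.isR1_of_real (fun f => (rel_vring w).mem_iff f) (h.isR1 hrel hR)
  have hC : ∀ c : π.range, algebraMap π.range Ω c ∈ vring w := by
    rintro ⟨_, f, rfl⟩
    exact h.ge f
  have hmC : ∀ c ∈ maximalIdeal π.range, (vring w).valuation (algebraMap π.range Ω c) < 1 := by
    intro c hc
    rw [(rel_vring w).lt_one_iff']
    exact h.pos c hc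
  have hinj : Function.Injective (π.rangeRestrict.comp (algebraMap R (Hat R))) := by
    intro x y hxy
    have h1 : π (algebraMap R (Hat R) x) = π (algebraMap R (Hat R) y) := congrArg Subtype.val hxy
    rw [h.comp, h.comp] at h1
    exact IsFractionRing.injective R K (j.injective h1)
  obtain ⟨e, he⟩ := exists_residue_equiv π
  have i6 : CharP π.range p := (CharP.charP_iff_prime_eq_zero hp).2 (by
    have h2 := congrArg (π.rangeRestrict.comp (algebraMap R (Hat R))) hp0
    rwa [map_natCast, map_zero] at h2)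
  have hm' : maximalIdeal π.range ≠ ⊥ := by
    obtain ⟨t, ht, ht0⟩ := Submodule.exists_mem_ne_zero_of_ne_bot hm
    intro h0
    have h1 := HD.mem_max (π := π) t ht
    rw [h0, Ideal.mem_bot] at h1
    exact ht0 (hinj (h1.trans (map_zero _).symm))
  have hfg' : @Algebra.EssFiniteType k (ResidueField π.range) _ _
      (e.toRingHom.comp ι).toAlgebra := by
    let j1 : Algebra k (ResidueField R) := ι.toAlgebra
    let j2 : Algebra k (ResidueField π.range) := (e.toRingHom.comp ι).toAlgebra
    have j3 : Algebra.EssFiniteType k (ResidueField R) := hfg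
    exact (Algebra.EssFiniteType.iff_of_algEquiv (R := k)
      (AlgEquiv.ofRingEquiv (f := e) fun _ => rfl)).1 j3
  have hN' : @Algebra.trdeg k (ResidueField π.range) _ _ (e.toRingHom.comp ι).toAlgebra +
      (m : Cardinal) ≤ (N : Cardinal) := by
    let j1 : Algebra k (ResidueField R) := ι.toAlgebra
    let j2 : Algebra k (ResidueField π.range) := (e.toRingHom.comp ι).toAlgebra
    have j3 : Algebra.trdeg k (ResidueField R) = Algebra.trdeg k (ResidueField π.range) :=
      (AlgEquiv.ofRingEquiv (R := k) (f := e) fun _ => rfl).trdeg_eq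
    have j4 : Algebra.trdeg k (ResidueField R) + (m : Cardinal) ≤ (N : Cardinal) := hN
    rw [j3] at j4
    exact j4
  refine lurV_complete_all p hp (e.toRingHom.comp ι) hfg' hdim' (vring w) hR' hC hmC hm' hLU
    ?_ hN'
  intro hzz f hf
  obtain ⟨y, hy⟩ := h.dens f 1
  have hf0 : w.Ge 0 f := ((rel_vring w).mem_iff f).1 hf
  have hy0 : w.Ge 0 (j y) := by
    have h1 : j y = f + -(f - j y) := by ring
    rw [h1]
    refine hf0.add ?_
    have h2 := hy.neg
    intro h0
    exact le_trans zero_le_one (h2 h0)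
  have hyV : y ∈ V := (hrel.mem_iff y).2 ((h.ge_iff 0 y).1 hy0)
  obtain ⟨c, ⟨c', hc'⟩, hc⟩ := hz hzz y hyV
  refine ⟨π.rangeRestrict (algebraMap R (Hat R) c), ⟨c', ?_⟩, ?_⟩
  · change e (ι c') = _
    rw [hc', he]
  · rw [(rel_vring w).lt_one_iff']
    have h1 : VPos v (y - algebraMap R K c) := (hrel.lt_one_iff' _).1 hc
    have h2 : VPos w (j y - j (algebraMap R K c)) := by
      rw [← map_sub]
      exact (h.pos_iff _).2 h1
    have h3 : VPos w (f - j y) := fun h0 => lt_of_lt_of_le zero_lt_one (hy h0)
    have h4 : f - algebraMap π.range Ω (π.rangeRestrict (algebraMap R (Hat R) c)) =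
        (f - j y) + (j y - j (algebraMap R K c)) := by
      change f - π (algebraMap R (Hat R) c) = _
      rw [h.comp]
      ring
    rw [h4]
    exact h3.add h2

end Pool.Agent.LUF91
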