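import Pool.Agent.Lib.LUZ.Stmt
import Pool.Agent.Lib.LUF_h91.C

/-! # D: log uniformization of valuations of rank one over noetherian domains of characteristic p,
with residue field at the center finitely generated over an algebraically closed field, from the log
uniformization of function fields of bounded transcendence degree -/

set_option autoImplicit false

namespace Pool.Agent.LUF91

open IsLocalRing
open Pool.Agent.H15JM (RVal)
open Pool.Agent.LU1 (VPos)
open Pool.Agent.LU2 (IsR1 IndVal IndRes Rel vring rel_vring)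
open Pool.Agent.LU2G (centerRing chart compRank LogUniformizable)
open Pool.Agent.LUC
open Pool.Agent.LUZ

universe u

theorem lus_local_all' (p : ℕ) (hp : p.Prime) {R K k : Type u} [CommRing R] [IsDomain R]
    [IsLocalRing R] [IsNoetherianRing R] [Field k] [IsAlgClosed k] (ι : k →+* ResidueField R)
    (hfg : @Algebra.EssFiniteType k (ResidueField R) _ _ ι.toAlgebra)
    [Field K] [Algebra R K] [IsFractionRing R K] {V : ValuationSubring K}
    {v : RVal K} (hR : IsR1 V) (hrel : Rel V v) (hge : ∀ r : R, algebraMap R K r ∈ V)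
    (𝔪 : Ideal R) (h𝔪 : 𝔪 = maximalIdeal R)
    (hpos : ∀ r ∈ 𝔪, V.valuation (algebraMap R K r) < 1)
    (hm : 𝔪 ≠ ⊥) (hp0 : (p : R) = 0)
    (hreg : ∀ Q : Ideal (AdicCompletion 𝔪 R), ∀ _ : Q.IsPrime,
      Q.comap (algebraMap R (AdicCompletion 𝔪 R)) = ⊥ →
      IsRegularLocalRing (Localization.AtPrime Q)) {m : ℕ}
    (hdim : ringKrullDim (AdicCompletion 𝔪 R ⧸ Ideal.span (implV (K := K) V 𝔪)) = m)
    {N : ℕ} {z : Prop} (hLU : RealUpTo k N z)
    (hz : z → ∀ f ∈ V, ∃ c : R, residue R c ∈ ι.range ∧ V.valuation (f - algebraMap R K c) < 1)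
    (hN : @Algebra.trdeg k (ResidueField R) _ _ ι.toAlgebra + (m : Cardinal) ≤ (N : Cardinal)) :
    ∃ (Ω : Type u) (_ : Field Ω) (w : RVal Ω) (j : K →+* Ω), (∀ x : K, x ≠ 0 → w (j x) = v x) ∧
      LUs w (j.comp (algebraMap R K)).range j.fieldRange := by
  subst h𝔪
  refine lus_local_all p hp ι hfg hR hrel hge hpos hm hp0 hreg
    (Ideal.span (implV (K := K) V (maximalIdeal R))) (fun f => ?_) hdim hLU hz hN
  obtain ⟨Ω, i0, w, π, j, -, -, -, -, h5, -⟩ := exists_hat (R := R) v
    (fun r => (hrel.mem_iff _).1 (hge r)) (fun r hr => (hrel.lt_one_iff' _).1 (hpos r hr)) hm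
  rw [implV_eq hrel hR]
  have h6 : (impl v : Set (Hat R)) = (RingHom.ker π : Set (Hat R)) := by
    ext g
    rw [SetLike.mem_coe, RingHom.mem_ker, h5]
  rw [h6, Ideal.span_eq]
  rfl

section Final

variable {A : Type} [CommRing A] [IsDomain A] {V : ValuationSubring (FractionRing A)}

/-- The transcendence degree over `k` of the subfield `F ⊇ k` of `L`. -/
noncomputable def trdegOver {L : Type} [Field L] (k F : Subfield L) (h : k ≤ F) : Cardinal :=
  @Algebra.trdeg k F _ _ (Subfield.inclusion h).toAlgebra

/-- Log uniformization over the local ring of a chart. -/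
theorem exists_lus_center_all (p : ℕ) (hp : p.Prime) (B : Subalgebra A (FractionRing A))
    [IsNoetherianRing B] (hB : ∀ z ∈ B, z ∈ V) (hR : IsR1 V) {v : RVal (FractionRing A)}
    (hrel : Rel V v) (hp0 : (p : A) = 0)
    (k : Subfield (ResidueField V)) [IsAlgClosed k] (s : Finset (ResidueField V))
    (hk : Subfield.closure ((k : Set (ResidueField V)) ∪ s) = centerField V B)
    (hkF : k ≤ centerField V B)
    (hreg : ∀ Q : Ideal (CenterCompletion V B), ∀ _ : Q.IsPrime,
      Q.comap (algebraMap (centerRing V B) (CenterCompletion V B)) = ⊥ →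
      IsRegularLocalRing (Localization.AtPrime Q))
    (m : ℕ) (hm : ringKrullDim (CenterCompletion V B ⧸ implicitIdeal V B) = m)
    {N : ℕ} {z : Prop} (hLU : RealUpTo k N z) (hz : z → k = ⊤)
    (hN : trdegOver k (centerField V B) hkF + (m : Cardinal) ≤ (N : Cardinal)) :
    ∃ (Ω : Type) (_ : Field Ω) (w : RVal Ω) (j : FractionRing A →+* Ω),
      (∀ x : FractionRing A, x ≠ 0 → w (j x) = v x) ∧
      LUs w (j.comp (algebraMap (centerRing V B) (FractionRing A))).range j.fieldRange := by
  have i1 : IsLocalRing (centerRing V B) := isLocalRing_center hB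
  have i2 : IsNoetherianRing (centerRing V B) := isNoetherian_center
  have i3 : IsFractionRing (centerRing V B) (FractionRing A) := isFractionRing_center
  have hpos : ∀ r ∈ centerIdeal V B, V.valuation
      (algebraMap (centerRing V B) (FractionRing A) r) < 1 := by
    intro r hr
    rw [centerIdeal_eq hB] at hr
    exact (mem_max_center hB r).1 hr
  have hmem : ∀ r : centerRing V B, V.valuation (r : FractionRing A) < 1 →
      r ∈ centerIdeal V B := fun r hr => Ideal.subset_span hr
  have hbot : centerIdeal V B ≠ ⊥ := by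
    intro h0
    apply hR.1
    rw [eq_top_iff]
    intro x _
    obtain ⟨a, b, hb, rfl⟩ := IsFractionRing.div_surjective (A := centerRing V B) x
    have hb1 : V.valuation (algebraMap (centerRing V B) (FractionRing A) b) = 1 := by
      refine le_antisymm ((V.valuation_le_one_iff _).2 (centerRing_le hB b)) ?_
      by_contra hcon
      have h1 := hmem b (not_le.1 hcon)
      rw [h0, Ideal.mem_bot] at h1
      exact nonZeroDivisors.ne_zero hb h1
    rw [← V.valuation_le_one_iff, map_div₀, hb1, div_one]
    exact (V.valuation_le_one_iff _).2 (centerRing_le hB a)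
  have hpm : ((p : ℕ) : centerRing V B) = 0 := by
    have h1 := congrArg (algebraMap A (centerRing V B)) hp0
    rwa [map_natCast, map_zero] at h1
  -- the residue field
  obtain ⟨e, he⟩ := exists_center_residue hB
  let ι : k →+* ResidueField (centerRing V B) := e.symm.toRingHom.comp (Subfield.inclusion hkF)
  have hfg : @Algebra.EssFiniteType k (ResidueField (centerRing V B)) _ _ ι.toAlgebra := by
    let j1 : Algebra k (centerField V B) := (Subfield.inclusion hkF).toAlgebra
    let j2 : Algebra k (ResidueField (centerRing V B)) := ι.toAlgebra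
    have j3 : Algebra.EssFiniteType k (centerField V B) := essFiniteType_of_closure k _ hkF s hk
    exact (Algebra.EssFiniteType.iff_of_algEquiv (R := k)
      (AlgEquiv.ofRingEquiv (f := e.symm) fun _ => rfl)).1 j3
  have hN' : @Algebra.trdeg k (ResidueField (centerRing V B)) _ _ ι.toAlgebra +
      (m : Cardinal) ≤ (N : Cardinal) := by
    let j1 : Algebra k (centerField V B) := (Subfield.inclusion hkF).toAlgebra
    let j2 : Algebra k (ResidueField (centerRing V B)) := ι.toAlgebra
    have j3 : Algebra.trdeg k (centerField V B) =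
        Algebra.trdeg k (ResidueField (centerRing V B)) :=
      (AlgEquiv.ofRingEquiv (R := k) (f := e.symm) fun _ => rfl).trdeg_eq
    have j4 : Algebra.trdeg k (centerField V B) + (m : Cardinal) ≤ (N : Cardinal) := hN
    rw [j3] at j4
    exact j4
  refine lus_local_all' p hp ι hfg hR hrel (centerRing_le hB) (centerIdeal V B)
    (centerIdeal_eq hB) hpos hbot hpm hreg hm hLU (fun hzz f hf => ?_) hN'
  -- the case of a residue field equal to `k`
  have hk' := hz hzz
  have hx : residue V ⟨f, hf⟩ ∈ centerField V B := hkF (by rw [hk']; trivial)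
  obtain ⟨y, hy⟩ := residue_surjective (e.symm ⟨residue V ⟨f, hf⟩, hx⟩)
  refine ⟨y, ⟨⟨residue V ⟨f, hf⟩, by rw [hk']; trivial⟩, ?_⟩, ?_⟩
  · rw [hy]
    rfl
  · have h1 := congrArg e hy
    rw [e.apply_symm_apply] at h1
    have h2 : ((e (residue (centerRing V B) y) : centerField V B) : ResidueField V) =
        residue V ⟨f, hf⟩ := congrArg Subtype.val h1
    rw [he] at h2
    have h3 : residue V (⟨f, hf⟩ - ⟨(y : FractionRing A), centerRing_le hB y⟩) = 0 := by
      rw [map_sub, sub_eq_zero]
      exact h2.symm
    rw [residue_eq_zero_iff, V.valuation_lt_one_iff] at h3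
    exact h3

end Final

end Pool.Agent.LUF91
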