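import Pool.Agent.Lib.LUF_h91.D
import Pool.Agent.Lib.LUZ.StmtDefs

/-! # E: the final theorem over noetherian domains of characteristic p -/

set_option autoImplicit false

namespace Pool.Agent.LUF91

open IsLocalRing
open Pool.Agent.H15JM (RVal)
open Pool.Agent.LU1 (VPos)
open Pool.Agent.LU2 (IsR1 IndVal IndRes Rel vring rel_vring)
open Pool.Agent.LU2G (centerRing chart compRank LogUniformizable)
open Pool.Agent.LUC
open Pool.Agent.LUZ

/-- Log uniformization of valuations of rank one over noetherian domains of characteristic p. -/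
theorem logUniformizable_formal_all (p : ℕ) (hp : p.Prime) (A : Type) [CommRing A] [IsDomain A]
    [IsNoetherianRing A] (V : ValuationSubring (FractionRing A))
    (hV : ∀ a : A, algebraMap A (FractionRing A) a ∈ V) (hrank : IsCoatom V)
    (hp0 : (p : A) = 0) (I : Ideal A) (g : A) (hg : g ∈ I)
    (hg0 : g ≠ 0) (hgmin : ∀ a ∈ I, V.valuation (algebraMap A (FractionRing A) a) ≤
      V.valuation (algebraMap A (FractionRing A) g))
    (k : Subfield (ResidueField V)) [IsAlgClosed k] (s : Finset (ResidueField V))
    (hk : Subfield.closure ((k : Set (ResidueField V)) ∪ s) = centerField V (chart I g))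
    (hkF : k ≤ centerField V (chart I g))
    (hreg : ∀ Q : Ideal (CenterCompletion V (chart I g)), ∀ _ : Q.IsPrime,
      Q.comap (algebraMap (centerRing V (chart I g)) (CenterCompletion V (chart I g))) = ⊥ →
      IsRegularLocalRing (Localization.AtPrime Q))
    (m : ℕ)
    (hm : ringKrullDim (CenterCompletion V (chart I g) ⧸ implicitIdeal V (chart I g)) = m)
    {N : ℕ} {z : Prop} (hLU : RealUpTo k N z) (hz : z → k = ⊤)
    (hN : trdegOver k (centerField V (chart I g)) hkF + (m : Cardinal) ≤ (N : Cardinal)) :
    LogUniformizable V := by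
  classical
  have hR : IsR1 V := by
    refine ⟨hrank.1, fun W hW => ?_⟩
    rcases hW.eq_or_lt with h1 | h1
    · exact Or.inl h1.symm
    · exact Or.inr (hrank.2 W h1)
  obtain ⟨v, hrel, -⟩ := hR.exists_real
  have hrel : Rel V v := hrel
  have hB : ∀ z ∈ chart I g, z ∈ V := chart_le hV I g hg0 hgmin
  have i0 : IsNoetherianRing (chart I g) := isNoetherian_chart I g
  obtain ⟨Ω, i1, w, j, hval, hLU⟩ := exists_lus_center_all p hp (chart I g) hB hR hrel hp0 k s hk
    hkF hreg m hm hLU hz hN
  let i4 : Algebra (FractionRing A) Ω := j.toAlgebra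
  let i5 : Algebra A Ω := (j.comp (algebraMap A (FractionRing A))).toAlgebra
  have i6 : IsScalarTower A (FractionRing A) Ω := IsScalarTower.of_algebraMap_eq fun _ => rfl
  have hVw : ∀ f : FractionRing A, f ∈ V ↔ w.Ge 0 (algebraMap (FractionRing A) Ω f) := by
    intro f
    rw [hrel.mem_iff]
    constructor
    · intro h1 h0
      have h2 := (map_ne_zero j).1 h0
      change 0 ≤ w (j f)
      rw [hval f h2]
      exact h1 h2
    · intro h1 h0
      rw [← hval f h0]
      exact h1 ((map_ne_zero j).2 h0)
  have hA' : ∀ a ∈ (algebraMap A Ω).range, w.Ge 0 a := by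
    rintro _ ⟨a, rfl⟩
    exact (hVw _).1 (hV a)
  obtain ⟨F, hF, hchart⟩ := exists_chart_eq I g
  have hg' : algebraMap A Ω g ≠ 0 := by
    intro h
    have h1 : algebraMap A (FractionRing A) g = 0 := (map_eq_zero j).1 h
    exact hg0 (IsFractionRing.injective A (FractionRing A) (h1.trans (map_zero _).symm))
  have hv : ∀ a ∈ I, w.Ge (w (algebraMap A Ω g)) (algebraMap A Ω a) := by
    intro a ha
    have h1 : algebraMap A (FractionRing A) g ≠ 0 := fun h =>
      hg0 (IsFractionRing.injective A (FractionRing A) (h.trans (map_zero _).symm))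
    exact (F2.val_le_iff hVw _ h1).1 (hgmin a ha)
  have himg : (fun x => x / algebraMap A Ω g) '' ((F.image (algebraMap A Ω) : Finset Ω) : Set Ω) =
      algebraMap (FractionRing A) Ω '' ((fun a => algebraMap A (FractionRing A) a /
        algebraMap A (FractionRing A) g) '' (F : Set A)) := by
    rw [Finset.coe_image, Set.image_image, Set.image_image]
    refine Set.image_congr fun a _ => ?_
    change _ = j _
    rw [map_div₀]
    rfl
  have hlv : lv w (adj (algebraMap A Ω).range ((fun x => x / algebraMap A Ω g) ''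
      ((F.image (algebraMap A Ω) : Finset Ω) : Set Ω))) =
      (j.comp (algebraMap (centerRing V (chart I g)) (FractionRing A))).range := by
    rw [himg, F2.map_adjoin, ← hchart, F2.map_locV hVw]
    ext x
    constructor
    · rintro ⟨z, hz, rfl⟩
      exact ⟨⟨z, hz⟩, rfl⟩
    · rintro ⟨z, rfl⟩
      exact ⟨z, z.2, rfl⟩
  have hfin : LUs w (algebraMap A Ω).range (algebraMap (FractionRing A) Ω).fieldRange := by
    refine LUs.of_chart hA' (algebraMap A Ω g) ⟨g, rfl⟩ hg' (F.image (algebraMap A Ω)) ?_ ?_
    · intro x hx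
      obtain ⟨a, ha, rfl⟩ := Finset.mem_image.1 hx
      exact ⟨⟨a, rfl⟩, hv a (hF a ha)⟩
    · rw [hlv]
      exact hLU
  exact LUM.logUniformizable_of_LU A A V hV (LUrV.lu (LUs.lurV hVw hV hfin))

/-- The subfield `F` of `L` is generated over the algebraically closed subfield `k` of `L` by a
finite set, and its transcendence degree over `k` is at most `s`. -/
def GeneratedOver {L : Type} [Field L] (k F : Subfield L) (s : ℕ) : Prop :=
  ∃ h : k ≤ F, (∃ E : Finset L, Subfield.closure ((k : Set L) ∪ E) = F) ∧
    @Algebra.trdeg k F _ _ (Subfield.inclusion h).toAlgebra ≤ (s : Cardinal)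

/-- Log uniformization of valuations of rank one over noetherian domains of characteristic p, in
terms of the local ring `R` at the center of `V` on a blowing up of `Spec A`. -/
theorem logUniformizable_stmt_all (p : ℕ) (hp : p.Prime) (A : Type) [CommRing A] [IsDomain A]
    [IsNoetherianRing A] (V : ValuationSubring (FractionRing A))
    (hV : ∀ a : A, algebraMap A (FractionRing A) a ∈ V) (hrank : IsCoatom V)
    (hp0 : (p : A) = 0) (I : Ideal A) (g : A) (hg : g ∈ I)
    (hg0 : g ≠ 0) (hgmin : ∀ a ∈ I, V.valuation (algebraMap A (FractionRing A) a) ≤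
      V.valuation (algebraMap A (FractionRing A) g))
    (R : Subalgebra A (FractionRing A)) (hR : R = centerRing V (chart I g))
    (k : Subfield (ResidueField V)) (hk : IsAlgClosed k) {s : ℕ}
    (hs : GeneratedOver k (LUF.centerField R V) s)
    (hreg : LUF.RegularFormalFibre R V) (n : ℕ)
    (hn : LUF.formalDim R V = n) {z : Prop} (hLU : RealUpTo k (s + n) z) (hz : z → k = ⊤) :
    LogUniformizable V := by
  subst hR
  have hB : ∀ z ∈ chart I g, z ∈ V := chart_le hV I g hg0 hgmin
  have e := centerField_centerRing hB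
  rw [e] at hs
  obtain ⟨hkF, ⟨E, hE⟩, htr⟩ := hs
  refine logUniformizable_formal_all p hp A V hV hrank hp0 I g hg hg0 hgmin k E hE hkF hreg n hn
    hLU hz ?_
  have h1 : trdegOver k (centerField V (chart I g)) hkF ≤ (s : Cardinal) := htr
  push_cast
  exact add_le_add h1 le_rfl

end Pool.Agent.LUF91
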